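import Pool.Agent.H1.EN2.Hs2
import Pool.Agent.H1.ENG.Hsc

/-!
# [H1 EN2 BD2] the trivial bound of `BB2`
-/

set_option autoImplicit false
set_option linter.dupNamespace false

open scoped NumberField ComplexConjugate
open IsDedekindDomain
open scoped Classical

noncomputable section

namespace H1.EN2

open H63.MA H38.ML H38.BB H38.BG H57.PC H57.BRA H77.PC3 H77.WD H77.WE Pool.Agent.H19.NF
  Pool.Agent.H19.AB H86.AP Pool.Agent.H19.A2

variable {K : Type} [Field K] [NumberField K] {Ω : Type} [Field Ω] [Algebra K Ω] [IsAlgClosure K Ω]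
  {p m : ℕ} {ζ : K}

theorem bb2_bd (hp : p.Prime) (hζ : IsPrimitiveRoot ζ p) [NeZero (p ^ m)] (D : RD0 K p ζ)
    (L : LDs D Ω) (Q : DP K Ω) (Fr : FR L)
    (I : ((Gal(Ω/K) → Gal(Ω/K) → Gal(Ω/K) → ZMod (p ^ m)) ×
      (Pl K → Gal(Ω/K) → Gal(Ω/K) → ZMod (p ^ m))) →+ AddCircle (1 : ℝ))
    {P : Type} [Group P] [Fintype P] (hP : IsPGroup p P) {Qg : Type} [Group Qg]
    (rP : P →* Qg) {G : Type} [Group G] [Fintype G] (rG : G →* Qg) (φ₁ : Gal(Ω/K) →* P)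
    (q : P →* G) (hq : Function.Surjective q) (b : P → P → ZMod (p ^ m))
    (w : G → G → G → ZMod (p ^ m)) :
    ∃ C : ℝ, 1 ≤ C ∧ ∀ (T : Finset (Pl K)) (γ : Pl K → P),
      ‖BB2 L Q Fr I rP rG φ₁ q b w T γ‖ ≤ C ^ (T.card + 1) := by
  obtain ⟨C₁, hC₁, hC⟩ := hs2_card (Ω := Ω) hp hζ L (Nat.card G)
  have h1 : (1 : ℝ) ≤ Fintype.card P := by
    exact_mod_cast Fintype.card_pos
  have h2 : (1 : ℝ) ≤ (Fintype.card P : ℝ) ^ 2 := one_le_pow₀ h1
  obtain ⟨Na, hNa⟩ : ∃ Na : ℕ, Na = Fintype.card ({v // v ∈ D.S0} → rP.ker) := ⟨_, rfl⟩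
  have hNa1 : (1 : ℝ) ≤ Na := by
    rw [hNa]
    exact_mod_cast Fintype.card_pos
  obtain ⟨C₂, hC₂⟩ : ∃ C₂ : ℝ, C₂ = C₁ * (Fintype.card P : ℝ) ^ 2 := ⟨_, rfl⟩
  have hC₂1 : 1 ≤ C₂ := by
    rw [hC₂]
    exact one_le_mul_of_one_le_of_one_le hC₁ h2
  refine ⟨Na * C₂, one_le_mul_of_one_le_of_one_le hNa1 hC₂1, fun T γ => ?_⟩
  obtain ⟨h3, h4⟩ := hC G le_rfl (hP.of_surjective q hq) T
  have hB : ∀ τ : Pl K → Gal(Ω/K) →* P, ‖B1 L Q Fr I rG (rP.comp φ₁) τ q b w T γ‖ ≤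
      C₂ ^ (T.card + 1) := by
    intro τ
    have hsub : XS2 L Q rG (rP.comp φ₁) (fun v => q.comp (τ v)) T ⊆ HS2 L G T := by
      intro φ hφ
      unfold XS2 at hφ
      split_ifs at hφ with h
      · rw [Set.Finite.mem_toFinset] at hφ
        exact (h4 φ).2 hφ.1
      · exact absurd hφ (Finset.notMem_empty _)
    unfold B1
    refine (norm_sum_le _ _).trans ?_
    have h5 : ∀ φ ∈ XS2 L Q rG (rP.comp φ₁) (fun v => q.comp (τ v)) T,
        ‖ec (JR D Q I b w τ φ) * ∏ v ∈ T, Vg q b (γ v) (φ (L.t v)) (φ (Fr.F v))‖ ≤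
          ((Fintype.card P : ℝ) ^ 2) ^ T.card := by
      intro φ _
      rw [norm_mul, H1.ENG.ec_norm, one_mul, norm_prod]
      refine (Finset.prod_le_prod (fun _ _ => norm_nonneg _)
        fun v _ => H1.ENG.vb_bd q _ _ _ _).trans ?_
      rw [Finset.prod_const]
    refine (Finset.sum_le_sum h5).trans ?_
    rw [Finset.sum_const, nsmul_eq_mul, hC₂, mul_pow]
    refine mul_le_mul ((Nat.cast_le.2 (Finset.card_le_card hsub)).trans h3)
      (pow_le_pow_right₀ h2 (Nat.le_succ _)) (by positivity) (by positivity)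
  unfold BB2
  refine (norm_sum_le _ _).trans ((Finset.sum_le_sum fun a _ => hB _).trans ?_)
  rw [Finset.sum_const, Finset.card_univ, nsmul_eq_mul, mul_pow, ← hNa]
  refine mul_le_mul_of_nonneg_right ?_ (by positivity)
  exact le_self_pow₀ hNa1 (Nat.succ_ne_zero _)

end H1.EN2
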