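import Pool.Agent.H1.EN2.Gp2
import Pool.Agent.H1.ENG.E1

/-!
# [H1 EN2 EN2] `Mn2 → Sm`

The proof of `eng1` (H1/ENG/E1), with `HS2`, `Unz` and `GPR D Ω (p ^ k)`.
-/

set_option autoImplicit false
set_option linter.dupNamespace false

open scoped NumberField ComplexConjugate
open IsDedekindDomain
open scoped Classical

noncomputable section

namespace H1.EN2

open H63.MA H38.ML H38.BB H38.BG H57.PC H57.BRA H77.PC3 H77.WD H77.WE Pool.Agent.H19.NF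
  Pool.Agent.H19.AB H86.AP H57.GP H35.CF Pool.Agent.H19.A2 H1.ENG

section uu

variable {K : Type} [Field K] [NumberField K] {p : ℕ} {ζ : K}

private theorem mem_ZZ (D : RD0 K p ζ) {Y : ℝ} {u : Pl K} : u ∈ ZZ D Y ↔ (nm u : ℝ) ≤ Y ∧ D.Gd u := by
  unfold ZZ
  rw [Finset.mem_filter, H57.AN.mem_PB]

private theorem uu_eq (D : RD0 K p ζ) {T₀ Y : ℝ} (E S : Finset (Pl K)) :
    ((ZZ D (Y / nr S)).filter (fun u => u ∉ S ∪ E)).filter (fun u => T₀ < (nm u : ℝ)) =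
      H86.AP.UU D T₀ Y E S := by
  have h1 := one_le_nr S
  have h0 : (0 : ℝ) < nr S := by linarith
  ext u
  unfold H86.AP.UU
  rw [Finset.mem_filter, Finset.mem_filter, Finset.mem_filter, Finset.mem_sdiff, mem_ZZ, mem_ZZ,
    Finset.mem_union, not_or, le_div_iff₀ h0, mul_comm (nm u : ℝ) (nr S)]
  have h2 : nr S * (nm u : ℝ) ≤ Y → (nm u : ℝ) ≤ Y := by
    intro h
    have h3 : (0 : ℝ) ≤ nm u := Nat.cast_nonneg _
    nlinarith
  tauto

private theorem uu_not (D : RD0 K p ζ) {T₀ x : ℝ} (T : Finset (Pl K)) (hx : T₀ ≤ x) :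
    ((ZZ D x).filter (fun u => u ∉ T)).filter (fun u => ¬ T₀ < (nm u : ℝ)) =
      (ZZ D T₀).filter (fun u => u ∉ T) := by
  ext u
  rw [Finset.mem_filter, Finset.mem_filter, Finset.mem_filter, mem_ZZ, mem_ZZ, not_lt]
  have h2 : (nm u : ℝ) ≤ T₀ → (nm u : ℝ) ≤ x := fun h => h.trans hx
  tauto

private theorem uu_sum (D : RD0 K p ζ) {T₀ Y : ℝ} (E S : Finset (Pl K))
    (hx : T₀ ≤ Y / nr S) (g : Pl K → ℂ) :
    ‖∑ u ∈ H86.AP.UU D T₀ Y E S, g u‖ ≤ ‖∑ u ∈ (ZZ D (Y / nr S)).filter (fun u => u ∉ S ∪ E), g u‖ +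
      ‖∑ u ∈ (ZZ D T₀).filter (fun u => u ∉ S ∪ E), g u‖ := by
  have h1 := Finset.sum_filter_add_sum_filter_not ((ZZ D (Y / nr S)).filter (fun u => u ∉ S ∪ E))
    (fun u => T₀ < (nm u : ℝ)) g
  rw [uu_eq D E S, uu_not D (S ∪ E) hx] at h1
  have h2 : ∑ u ∈ H86.AP.UU D T₀ Y E S, g u = ∑ u ∈ (ZZ D (Y / nr S)).filter (fun u => u ∉ S ∪ E), g u -
      ∑ u ∈ (ZZ D T₀).filter (fun u => u ∉ S ∪ E), g u := by
    rw [← h1]
    ring
  rw [h2]
  exact norm_sub_le _ _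

private theorem uu_empty (D : RD0 K p ζ) {T₀ Y : ℝ} (E S : Finset (Pl K)) (hx : Y / nr S < T₀) :
    H86.AP.UU D T₀ Y E S = ∅ := by
  have h1 := one_le_nr S
  have h0 : (0 : ℝ) < nr S := by linarith
  unfold H86.AP.UU
  rw [Finset.filter_eq_empty_iff]
  rintro u - ⟨-, h3, h4⟩
  have h5 : (nm u : ℝ) ≤ Y / nr S := by
    rw [le_div_iff₀ h0, mul_comm]
    exact h4
  linarith

private theorem uu_card (D : RD0 K p ζ) {T₀ Y : ℝ} (E S : Finset (Pl K)) (hY : 0 < Y) :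
    ((H86.AP.UU D T₀ Y E S).card : ℝ) ≤ Module.finrank ℚ K * (Y / nr S) := by
  have h1 := one_le_nr S
  have h0 : (0 : ℝ) < nr S := by linarith
  refine le_trans ?_ (H1.PN.pb_card (L := K) (Y / nr S) (by positivity))
  exact_mod_cast Finset.card_le_card fun u hu => by
    unfold H86.AP.UU at hu
    rw [Finset.mem_filter] at hu
    rw [H57.AN.mem_PB, le_div_iff₀ h0, mul_comm]
    exact hu.2.2.2

private theorem uu_good (D : RD0 K p ζ) {T₀ Y : ℝ} {E S : Finset (Pl K)} {u : Pl K}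
    (hu : u ∈ H86.AP.UU D T₀ Y E S) : D.Gd u ∧ u ∉ S ∪ E := by
  unfold H86.AP.UU at hu
  rw [Finset.mem_filter, Finset.mem_sdiff, mem_ZZ] at hu
  refine ⟨hu.1.1.2, ?_⟩
  rw [Finset.mem_union, not_or]
  exact ⟨hu.2.1, hu.1.2⟩

end uu

section ev

variable {Ω : Type} {K : Type} [Field K] [NumberField K] [Field Ω] [Algebra K Ω] {p : ℕ} {ζ : K}
  {D : RD0 K p ζ}

private theorem ev_bd (L : LDs D Ω) (Fr : FR L) {H : Type} [Group H] (F : H → ℂ) {M C Ch : ℝ}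
    (hM0 : 0 ≤ M) (hM : ∀ h, ‖F h‖ ≤ M) (T : Finset (Pl K)) (co : (Gal(Ω/K) →* H) → ℂ)
    (hC : 0 ≤ C) (hco : ∀ Θ, ‖co Θ‖ ≤ C ^ (T.card + 1))
    (hHS : ((HS2 L H T).card : ℝ) ≤ Ch ^ (T.card + 1)) (u : Pl K) :
    ‖Ev2 L Fr H F T co u‖ ≤ (Ch * C) ^ (T.card + 1) * M := by
  unfold Ev2
  refine (norm_sum_le _ _).trans ?_
  have h1 : ∀ Θ ∈ HS2 L H T, ‖co Θ * F (Θ (Fr.F u))‖ ≤ C ^ (T.card + 1) * M := by
    intro Θ _
    rw [norm_mul]
    exact mul_le_mul (hco Θ) (hM _) (norm_nonneg _) (by positivity)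
  refine (Finset.sum_le_sum h1).trans ?_
  rw [Finset.sum_const, nsmul_eq_mul, mul_pow, mul_assoc]
  exact mul_le_mul_of_nonneg_right hHS (by positivity)

private theorem ev_sum (L : LDs D Ω) (Fr : FR L) {H : Type} [Group H] (F : H → ℂ) {C : ℝ}
    (T : Finset (Pl K)) (co : (Gal(Ω/K) →* H) → ℂ)
    (hco : ∀ Θ, ‖co Θ‖ ≤ C) (U : Finset (Pl K)) (s : (Gal(Ω/K) →* H) → ℝ)
    (hs : ∀ Θ, ‖∑ u ∈ U, F (Θ (Fr.F u))‖ ≤ s Θ) :
    ‖∑ u ∈ U, Ev2 L Fr H F T co u‖ ≤ ∑ Θ ∈ (HS2 L H T).filter (fun Θ => co Θ ≠ 0), C * s Θ := by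
  unfold Ev2
  rw [Finset.sum_comm, Finset.sum_filter]
  refine (norm_sum_le _ _).trans (Finset.sum_le_sum fun Θ _ => ?_)
  rw [← Finset.mul_sum, norm_mul]
  split_ifs with h
  · exact mul_le_mul (hco Θ) (hs Θ) (norm_nonneg _) ((norm_nonneg _).trans (hco Θ))
  · push Not at h
    rw [h, norm_zero, zero_mul]

end ev

/-- the engine, uniform in the places and in the function `X` (data `H`, `F`, `C`) -/
theorem eng2u {K : Type} [Field K] [NumberField K] {Ω : Type} [Field Ω] [Algebra K Ω]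
    [IsAlgClosure K Ω] {p k N : ℕ} [NeZero N] {ζ : K} (hp : p.Prime) (hζ : IsPrimitiveRoot ζ p)
    (D : RD0 K p ζ) (hG : GPR D Ω (p ^ k)) {P : Type} [Group P] (c : CL p N P) (j₀ : Fin N)
    (H : Type) [Group H] [Fintype H] (F : H → ℂ) (C : ℝ) (hq : ∀ h : H, h ^ p ^ k = 1)
    (hF : ∀ g h : H, F (g * h * g⁻¹) = F h) (hC : 1 ≤ C) (ε : ℝ) (A A₁ : ℕ) (hε : 0 < ε) :
    ∃ Y₀ : ℝ, ∀ Y : ℝ, Y₀ ≤ Y → ∀ (L : LDs D Ω) (Fr : FR L)
      (X : Finset (Pl K) → (Pl K → P) → ℂ),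
      (∀ (T : Finset (Pl K)) (γ : Pl K → P), (∀ v ∈ T, v ∉ D.S0) →
        ∃ co : (Gal(Ω/K) →* H) → ℂ, (∀ Θ, ‖co Θ‖ ≤ C ^ (T.card + 1)) ∧
          (∀ Θ, co Θ ≠ 0 → (∀ j, j ≠ j₀ → ∃ v ∈ T, γ v = c.g j) → mr Θ F = 0) ∧
          ∀ u, D.Gd u → u ∉ T →
            X (insert u T) (Function.update γ u (c.g j₀)) = Ev2 L Fr H F T co u) →
      ∀ (E : Finset (Pl K)) (e : Pl K → P), (∀ v ∈ E, v ∉ D.S0) → nr E ≤ Real.log Y ^ A₁ →
      ∀ wt : (Pl K → Option (Fin N)) → ℝ, (∀ f, 0 ≤ wt f ∧ wt f ≤ 1) →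
      ‖∑ f ∈ RX D j₀ (Real.exp (Real.log Y ^ ε)) Y E, (wt f : ℂ) *
        ∑ u ∈ UU D (Real.exp (Real.log Y ^ ε)) Y E (sp (ZZ D Y \ E) f),
          X (insert u (sp (ZZ D Y \ E) f ∪ E)) (Function.update (gl c E e f) u (c.g j₀))‖ ≤
        Y * Real.log Y ^ (-(A : ℝ)) := by
  obtain ⟨Ch, hCh, hHS⟩ := hs2_cardL (Ω := Ω) hp hζ D (Nat.card H)
  obtain ⟨M, hM⟩ : ∃ M : ℕ, ∀ h, ‖F h‖ ≤ M := by
    refine ⟨⌈∑ h, ‖F h‖⌉₊, fun h => ?_⟩
    exact (Finset.single_le_sum (f := fun h => ‖F h‖) (fun _ _ => norm_nonneg _)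
      (Finset.mem_univ h)).trans (Nat.le_ceil _)
  obtain ⟨b, hb⟩ : ∃ b : ℝ, b = Ch * C := ⟨_, rfl⟩
  have hb1 : 1 ≤ b := by
    rw [hb]
    exact one_le_mul_of_one_le_of_one_le hCh hC
  obtain ⟨CE, YE, hE⟩ := pow_ll b hb1 (2 * A₁)
  obtain ⟨B', C', hB', hC', hcn⟩ := cn2 K N b (by linarith) ((A : ℝ) + CE + 2)
  obtain ⟨C2, Y2, h2⟩ := pow_ll C hC (B' + 2 * A₁)
  have hN1 : (1 : ℝ) ≤ ((N : ℝ) + 1) * Ch := by
    have : (0 : ℝ) ≤ N := Nat.cast_nonneg _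
    exact one_le_mul_of_one_le_of_one_le (by linarith) hCh
  obtain ⟨C3, Y3, h3⟩ := pow_ll (((N : ℝ) + 1) * Ch) hN1 (B' + 2 * A₁)
  obtain ⟨Y4, h4⟩ := gp2 hp D hG (Fintype.card H + M) (C3 + (B' + 2 * A₁) + A₁ + 2)
    (A + C2 + A₁ + 2) ε hε
  obtain ⟨κ, hκ⟩ : ∃ κ : ℝ, κ = Module.finrank ℚ K * M * C' + 2 := ⟨_, rfl⟩
  refine ⟨max (max (max YE Y2) (max Y3 Y4)) (max (Real.exp (Real.exp 1)) (Real.exp κ)), ?_⟩
  intro Y hY L Fr X hco E e hES hEn wt hwt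
  have hHS' := fun T => (hHS L H le_rfl (fun h => ⟨k, hq h⟩) T)
  rw [max_le_iff, max_le_iff, max_le_iff, max_le_iff, max_le_iff] at hY
  obtain ⟨⟨⟨hYE, hY2⟩, hY3, hY4⟩, hYe, hYκ⟩ := hY
  obtain ⟨hY3', hle, hll⟩ := loglog hYe
  have hY0 : 0 < Y := by linarith
  obtain ⟨l, hl⟩ : ∃ l : ℝ, l = Real.log Y := ⟨_, rfl⟩
  have hlκ : κ ≤ l := by
    rw [hl]
    exact (Real.le_log_iff_exp_le hY0).2 hYκ
  have hκ2 : 2 ≤ κ := by
    rw [hκ]
    have : (0 : ℝ) ≤ Module.finrank ℚ K * M * C' := by positivity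
    linarith
  have hl1 : 1 ≤ l := by linarith
  have hl0 : 0 < l := by linarith
  have hll' : Real.log Y ^ ε = l ^ ε := by rw [hl]
  obtain ⟨T₀, hT₀⟩ : ∃ T₀ : ℝ, T₀ = Real.exp (Real.log Y ^ ε) := ⟨_, rfl⟩
  rw [← hT₀]
  have hcE := card_ll E A₁ hYe hEn
  -- notation
  obtain ⟨S, hS⟩ : ∃ S : (Pl K → Option (Fin N)) → Finset (Pl K), S = fun f => sp (ZZ D Y \ E) f := ⟨_, rfl⟩
  have hSE : ∀ f, Disjoint (S f) E := by
    intro f
    rw [Finset.disjoint_left]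
    intro v hv
    rw [hS] at hv
    exact (Finset.mem_sdiff.1 (mem_sp.1 hv).1).2
  have hSG : ∀ f, ∀ v ∈ S f, D.Gd v := by
    intro f v hv
    rw [hS] at hv
    exact ((mem_ZZ D).1 (Finset.mem_sdiff.1 (mem_sp.1 hv).1).1).2
  have hTS : ∀ f, ∀ v ∈ S f ∪ E, v ∉ D.S0 := by
    intro f v hv
    rcases Finset.mem_union.1 hv with h | h
    · exact (hSG f v h).1
    · exact hES v h
  have hTc : ∀ f, ((S f ∪ E).card : ℝ) ≤ (S f).card + E.card := by
    intro f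
    exact_mod_cast Finset.card_union_le _ _
  choose co hco1 hco2 hco3 using fun f => hco (S f ∪ E) (gl c E e f) (hTS f)
  have hcoX : ∀ f, ∑ u ∈ H86.AP.UU D T₀ Y E (S f), X (insert u (S f ∪ E)) (Function.update (gl c E e f) u (c.g j₀)) =
      ∑ u ∈ H86.AP.UU D T₀ Y E (S f), Ev2 L Fr H F (S f ∪ E) (co f) u := by
    intro f
    refine Finset.sum_congr rfl fun u hu => ?_
    obtain ⟨h5, h6⟩ := uu_good D hu
    exact hco3 f u h5 h6
  -- the absolute values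
  have hSf : ∀ f, sp (ZZ D Y \ E) f = S f := fun f => by rw [hS]
  simp only [hSf, hcoX]
  obtain ⟨If, hIf⟩ : ∃ If : (Pl K → Option (Fin N)) → ℝ,
      If = fun f => ‖∑ u ∈ H86.AP.UU D T₀ Y E (S f), Ev2 L Fr H F (S f ∪ E) (co f) u‖ := ⟨_, rfl⟩
  have hstep : ‖∑ f ∈ RX D j₀ T₀ Y E, (wt f : ℂ) * ∑ u ∈ H86.AP.UU D T₀ Y E (S f),
      Ev2 L Fr H F (S f ∪ E) (co f) u‖ ≤ ∑ f ∈ RX D j₀ T₀ Y E, If f := by
    refine (norm_sum_le _ _).trans (Finset.sum_le_sum fun f _ => ?_)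
    rw [norm_mul, Complex.norm_real, Real.norm_of_nonneg (hwt f).1, hIf]
    exact mul_le_of_le_one_left (norm_nonneg _) (hwt f).2
  refine hstep.trans ?_
  rw [← Finset.sum_filter_add_sum_filter_not (RX D j₀ T₀ Y E)
    (fun f => B' * Real.log (Real.log Y) < ((S f).card : ℝ)) If]
  -- the configurations with large support
  have part1 : ∑ f ∈ (RX D j₀ T₀ Y E).filter (fun f => B' * Real.log (Real.log Y) < ((S f).card : ℝ)), If f ≤
      (Module.finrank ℚ K * M * C') * (Y * l ^ (-((A : ℝ) + 2))) := by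
    have h5 : ∀ f ∈ (RX D j₀ T₀ Y E).filter (fun f => B' * Real.log (Real.log Y) < ((S f).card : ℝ)),
        If f ≤ (Module.finrank ℚ K * M * Y * l ^ CE) * (b ^ (S f).card * (nr (S f))⁻¹) := by
      intro f _
      have hn1 := one_le_nr (S f)
      have e1 : If f ≤ (H86.AP.UU D T₀ Y E (S f)).card * (b ^ ((S f ∪ E).card + 1) * M) := by
        rw [hIf]
        refine (norm_sum_le _ _).trans ?_
        rw [← nsmul_eq_mul, ← Finset.sum_const]
        refine Finset.sum_le_sum fun u _ => ?_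
        rw [hb]
        exact ev_bd L Fr F (Nat.cast_nonneg M) hM _ _ (by linarith) (hco1 f) (hHS' _).1 u
      have e2 : b ^ ((S f ∪ E).card + 1) ≤ l ^ CE * b ^ (S f).card := by
        calc b ^ ((S f ∪ E).card + 1) ≤ b ^ ((S f).card + E.card + 1) :=
              pow_le_pow_right₀ hb1 (Nat.add_le_add_right (Finset.card_union_le _ _) 1)
          _ = (b * b ^ E.card) * b ^ (S f).card := by ring
          _ ≤ l ^ CE * b ^ (S f).card := by
              refine mul_le_mul_of_nonneg_right ?_ (by positivity)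
              rw [hl]
              exact hE Y hYE E.card (by push_cast; exact hcE)
      have e3 := uu_card D (T₀ := T₀) E (S f) hY0
      calc If f ≤ (H86.AP.UU D T₀ Y E (S f)).card * (b ^ ((S f ∪ E).card + 1) * M) := e1
        _ ≤ (Module.finrank ℚ K * (Y / nr (S f))) * ((l ^ CE * b ^ (S f).card) * M) := by
            refine mul_le_mul e3 (mul_le_mul_of_nonneg_right e2 (Nat.cast_nonneg M)) (by positivity) (by positivity)
        _ = _ := by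
            rw [div_eq_mul_inv]
            ring
    refine (Finset.sum_le_sum h5).trans ?_
    rw [← Finset.mul_sum]
    have h6 : ∑ f ∈ (RX D j₀ T₀ Y E).filter (fun f => B' * Real.log (Real.log Y) < ((S f).card : ℝ)),
        b ^ (S f).card * (nr (S f))⁻¹ ≤ C' * l ^ (-((A : ℝ) + CE + 2)) := by
      rw [hl]
      refine le_trans ?_ (hcn (ZZ D Y \ E) Y hYe)
      simp only [hSf]
      refine Finset.sum_le_sum_of_subset_of_nonneg (fun f hf => ?_) fun f _ _ => ?_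
      · unfold RX at hf
        simp only [hSf] at hf
        rw [Finset.mem_filter, Finset.mem_filter] at hf
        rw [Finset.mem_filter]
        exact ⟨hf.1.1, hf.1.2.2, hf.2⟩
      · have := one_le_nr (S f)
        positivity
    refine (mul_le_mul_of_nonneg_left h6 (by positivity)).trans (le_of_eq ?_)
    have h7 : l ^ CE * l ^ (-((A : ℝ) + CE + 2)) = l ^ (-((A : ℝ) + 2)) := by
      rw [← Real.rpow_natCast, ← Real.rpow_add hl0]
      congr 1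
      ring
    calc Module.finrank ℚ K * M * Y * l ^ CE * (C' * l ^ (-((A : ℝ) + CE + 2)))
        = (Module.finrank ℚ K * M * C') * (Y * (l ^ CE * l ^ (-((A : ℝ) + CE + 2)))) := by ring
      _ = _ := by rw [h7]
  -- the other configurations
  obtain ⟨R2, hR2⟩ : ∃ R2 : Finset (Pl K → Option (Fin N)),
      R2 = (RX D j₀ T₀ Y E).filter (fun f => ¬ B' * Real.log (Real.log Y) < ((S f).card : ℝ)) := ⟨_, rfl⟩
  have hR2m : ∀ f ∈ R2, f ∈ Cf (ZZ D Y \ E) (Fin N) ∧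
      (∀ j, j ≠ j₀ → ∃ v ∈ S f ∪ E, gl c E e f v = c.g j) ∧ nr (S f) ≤ Y ∧
      ((S f ∪ E).card : ℝ) ≤ (B' + 2 * A₁ : ℕ) * Real.log (Real.log Y) := by
    intro f hf
    rw [hR2] at hf
    unfold RX at hf
    simp only [hSf] at hf
    rw [Finset.mem_filter, Finset.mem_filter, not_lt] at hf
    obtain ⟨⟨f1, f2, f3⟩, f4⟩ := hf
    refine ⟨f1, fun j hj => ?_, f3, ?_⟩
    · obtain ⟨v, hv, -⟩ := f2 j hj
      rw [mem_pl] at hv
      refine ⟨v, Finset.mem_union_left _ ?_, ?_⟩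
      · rw [hS]
        exact mem_sp.2 ⟨hv.1, by rw [hv.2]; exact Option.some_ne_none j⟩
      · unfold gl
        rw [if_neg (Finset.mem_sdiff.1 hv.1).2]
        unfold cf
        rw [hv.2]
        rfl
    · have h5 := hTc f
      push_cast
      linarith
  obtain ⟨J, hJ⟩ : ∃ J : Finset (Σ _ : (Pl K → Option (Fin N)), (Gal(Ω/K) →* H)),
      J = (R2.filter fun f => T₀ ≤ Y / nr (S f)).sigma fun f =>
        (HS2 L H (S f ∪ E)).filter fun Θ => co f Θ ≠ 0 := ⟨_, rfl⟩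
  have hJm : ∀ i ∈ J, i.1 ∈ R2 ∧ T₀ ≤ Y / nr (S i.1) ∧ i.2 ∈ HS2 L H (S i.1 ∪ E) ∧ co i.1 i.2 ≠ 0 := by
    intro i hi
    rw [hJ, Finset.mem_sigma, Finset.mem_filter, Finset.mem_filter] at hi
    exact ⟨hi.1.1, hi.1.2, hi.2.1, hi.2.2⟩
  have hnT : ∀ f, nr (S f ∪ E) ≤ nr (S f) * l ^ A₁ := by
    intro f
    rw [nr_union (hSE f), hl]
    exact mul_le_mul_of_nonneg_left hEn (by have := one_le_nr (S f); linarith)
  have hlY : l ≤ Y := by
    rw [hl]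
    have := Real.log_le_sub_one_of_pos hY0
    linarith
  have hY1 : 1 ≤ Y := by linarith
  have hgp : ∀ x : (Σ _ : (Pl K → Option (Fin N)), (Gal(Ω/K) →* H)) → ℝ,
      (∀ i ∈ J, T₀ ≤ x i ∧ x i ≤ Y / nr (S i.1)) →
      ∑ i ∈ J, ‖∑ u ∈ (ZZ D (x i)).filter (fun u => u ∉ S i.1 ∪ E), F (i.2 (Fr.F u))‖ ≤
        (Y * l ^ A₁) * l ^ (-((A + C2 + A₁ + 2 : ℕ) : ℝ)) := by
    intro x hx
    have g1 := h4 Y hY4 L Fr (Σ _ : (Pl K → Option (Fin N)), (Gal(Ω/K) →* H)) J (fun i => S i.1 ∪ E) x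
      (by
        intro i hi
        obtain ⟨i1, i2, i3, i4⟩ := hJm i hi
        obtain ⟨r1, r2, r3, r4⟩ := hR2m _ i1
        refine ⟨?_, r4.trans ?_⟩
        · calc nr (S i.1 ∪ E) ≤ nr (S i.1) * l ^ A₁ := hnT _
            _ ≤ Y * Y ^ A₁ := mul_le_mul r3 (pow_le_pow_left₀ hl0.le hlY _) (by positivity) hY0.le
            _ = Y ^ (A₁ + 1) := by ring
            _ ≤ _ := pow_le_pow_right₀ hY1 (by omega)
        · refine mul_le_mul_of_nonneg_right ?_ (by linarith)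
          exact_mod_cast (by omega : B' + 2 * A₁ ≤ C3 + (B' + 2 * A₁) + A₁ + 2))
      (by
        intro i hi
        obtain ⟨x1, x2⟩ := hx i hi
        rw [← hT₀]
        refine ⟨x1, x2.trans ?_⟩
        have h5 := one_le_nr (S i.1)
        calc Y / nr (S i.1) ≤ Y := div_le_self hY0.le h5
          _ = Y ^ 1 := (pow_one Y).symm
          _ ≤ _ := pow_le_pow_right₀ hY1 (by omega))
      (by
        intro n'
        by_cases hn : ((n'.card : ℕ) : ℝ) ≤ (B' + 2 * A₁ : ℕ) * Real.log (Real.log Y)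
        · have e1 : (J.filter fun i => S i.1 ∪ E = n').card ≤
              (((Cf (ZZ D Y \ E) (Fin N)).filter fun f => sp (ZZ D Y \ E) f ⊆ n') ×ˢ (HS2 L H n')).card := by
            refine Finset.card_le_card_of_injOn (fun i => (i.1, i.2)) (fun i hi => ?_) ?_
            · rw [Finset.mem_coe, Finset.mem_filter] at hi
              obtain ⟨i1, i2, i3, i4⟩ := hJm i hi.1
              rw [Finset.mem_coe, Finset.mem_product, Finset.mem_filter]
              refine ⟨⟨(hR2m _ i1).1, ?_⟩, ?_⟩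
              · rw [hSf, ← hi.2]
                exact Finset.subset_union_left
              · rw [← hi.2]
                exact i3
            · rintro ⟨f, Θ⟩ _ ⟨f', Θ'⟩ _ h
              simp only [Prod.mk.injEq] at h
              obtain ⟨rfl, rfl⟩ := h
              rfl
          have e2 : ((J.filter fun i => S i.1 ∪ E = n').card : ℝ) ≤
              ((N : ℝ) + 1) ^ n'.card * Ch ^ (n'.card + 1) := by
            calc ((J.filter fun i => S i.1 ∪ E = n').card : ℝ) ≤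
                ((((Cf (ZZ D Y \ E) (Fin N)).filter fun f => sp (ZZ D Y \ E) f ⊆ n') ×ˢ (HS2 L H n')).card : ℝ) := by
                  exact_mod_cast e1
              _ = (((Cf (ZZ D Y \ E) (Fin N)).filter fun f => sp (ZZ D Y \ E) f ⊆ n').card : ℝ) *
                  ((HS2 L H n').card : ℝ) := by
                  rw [Finset.card_product]
                  push_cast
                  rfl
              _ ≤ _ := mul_le_mul (cn3 _ _ _) (hHS' n').1 (Nat.cast_nonneg _) (by positivity)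
          refine e2.trans ?_
          have hN0 : (0 : ℝ) ≤ N := Nat.cast_nonneg _
          calc ((N : ℝ) + 1) ^ n'.card * Ch ^ (n'.card + 1)
              ≤ ((N : ℝ) + 1) ^ (n'.card + 1) * Ch ^ (n'.card + 1) := by
                refine mul_le_mul_of_nonneg_right (pow_le_pow_right₀ (by linarith) (Nat.le_succ _)) (by positivity)
            _ = (((N : ℝ) + 1) * Ch) * (((N : ℝ) + 1) * Ch) ^ n'.card := by rw [← mul_pow, pow_succ']
            _ ≤ Real.log Y ^ C3 := h3 Y hY3 _ hn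
            _ ≤ _ := pow_le_pow_right₀ (by rw [← hl]; exact hl1) (by omega)
        · have e1 : (J.filter fun i => S i.1 ∪ E = n') = ∅ := by
            rw [Finset.filter_eq_empty_iff]
            intro i hi h
            obtain ⟨i1, i2, i3, i4⟩ := hJm i hi
            apply hn
            rw [← h]
            exact (hR2m _ i1).2.2.2
          rw [e1, Finset.card_empty, Nat.cast_zero]
          rw [← hl]
          positivity)
      H F (Nat.le_add_right _ _) hq hF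
      (fun h => (hM h).trans (by push_cast; have : (0 : ℝ) ≤ Fintype.card H := Nat.cast_nonneg _; linarith))
      (fun i => i.2)
      (by
        intro i hi
        obtain ⟨i1, i2, i3, i4⟩ := hJm i hi
        exact ⟨((hHS' _).2 _).1 i3, hco2 _ _ i4 (hR2m _ i1).2.1⟩)
    rw [← hl] at g1
    have g2 : ∀ i ∈ J, ‖∑ u ∈ (ZZ D (x i)).filter (fun u => u ∉ S i.1 ∪ E), F (i.2 (Fr.F u))‖ ≤
        (Y * l ^ A₁) * ((nr (S i.1 ∪ E))⁻¹ * (x i)⁻¹ *
          ‖∑ u ∈ (ZZ D (x i)).filter (fun u => u ∉ S i.1 ∪ E), F (i.2 (Fr.F u))‖) := by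
      intro i hi
      obtain ⟨x1, x2⟩ := hx i hi
      have hx0 : 0 < x i := lt_of_lt_of_le (by rw [hT₀]; exact Real.exp_pos _) x1
      have hn1 := one_le_nr (S i.1)
      have hn2 := one_le_nr (S i.1 ∪ E)
      have e1 : nr (S i.1 ∪ E) * x i ≤ Y * l ^ A₁ := by
        calc nr (S i.1 ∪ E) * x i ≤ (nr (S i.1) * l ^ A₁) * (Y / nr (S i.1)) :=
              mul_le_mul (hnT _) x2 hx0.le (by positivity)
          _ = Y * l ^ A₁ := by
              field_simp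
      have e2 : 1 ≤ (Y * l ^ A₁) * ((nr (S i.1 ∪ E))⁻¹ * (x i)⁻¹) := by
        rw [← mul_inv, ← div_eq_mul_inv, le_div_iff₀ (by positivity), one_mul]
        exact e1
      calc ‖∑ u ∈ (ZZ D (x i)).filter (fun u => u ∉ S i.1 ∪ E), F (i.2 (Fr.F u))‖
          = 1 * ‖∑ u ∈ (ZZ D (x i)).filter (fun u => u ∉ S i.1 ∪ E), F (i.2 (Fr.F u))‖ := (one_mul _).symm
        _ ≤ ((Y * l ^ A₁) * ((nr (S i.1 ∪ E))⁻¹ * (x i)⁻¹)) *
            ‖∑ u ∈ (ZZ D (x i)).filter (fun u => u ∉ S i.1 ∪ E), F (i.2 (Fr.F u))‖ :=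
            mul_le_mul_of_nonneg_right e2 (norm_nonneg _)
        _ = _ := by ring
    refine (Finset.sum_le_sum g2).trans ?_
    rw [← Finset.mul_sum]
    exact mul_le_mul_of_nonneg_left g1 (by positivity)
  have part2 : ∑ f ∈ R2, If f ≤ 2 * (Y * l ^ (-((A : ℝ) + 2))) := by
    have h5 : ∑ f ∈ R2, If f = ∑ f ∈ R2.filter (fun f => T₀ ≤ Y / nr (S f)), If f := by
      symm
      refine Finset.sum_filter_of_ne fun f _ hne => ?_
      by_contra hcon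
      push Not at hcon
      apply hne
      rw [hIf]
      show ‖∑ u ∈ H86.AP.UU D T₀ Y E (S f), Ev2 L Fr H F (S f ∪ E) (co f) u‖ = 0
      rw [uu_empty D E (S f) hcon, Finset.sum_empty, norm_zero]
    rw [h5]
    have h6 : ∀ f ∈ R2.filter (fun f => T₀ ≤ Y / nr (S f)), If f ≤
        ∑ Θ ∈ (HS2 L H (S f ∪ E)).filter (fun Θ => co f Θ ≠ 0), l ^ C2 *
          (‖∑ u ∈ (ZZ D (Y / nr (S f))).filter (fun u => u ∉ S f ∪ E), F (Θ (Fr.F u))‖ +
            ‖∑ u ∈ (ZZ D T₀).filter (fun u => u ∉ S f ∪ E), F (Θ (Fr.F u))‖) := by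
      intro f hf
      rw [Finset.mem_filter] at hf
      rw [hIf]
      refine ev_sum L Fr F (S f ∪ E) (co f) (fun Θ => (hco1 f Θ).trans ?_) _ _
        fun Θ => uu_sum D E (S f) hf.2 _
      rw [pow_succ', hl]
      exact h2 Y hY2 _ (hR2m _ hf.1).2.2.2
    refine (Finset.sum_le_sum h6).trans ?_
    have h7 : ∑ f ∈ R2.filter (fun f => T₀ ≤ Y / nr (S f)),
        ∑ Θ ∈ (HS2 L H (S f ∪ E)).filter (fun Θ => co f Θ ≠ 0), l ^ C2 *
          (‖∑ u ∈ (ZZ D (Y / nr (S f))).filter (fun u => u ∉ S f ∪ E), F (Θ (Fr.F u))‖ +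
            ‖∑ u ∈ (ZZ D T₀).filter (fun u => u ∉ S f ∪ E), F (Θ (Fr.F u))‖) =
        ∑ i ∈ J, l ^ C2 *
          (‖∑ u ∈ (ZZ D (Y / nr (S i.1))).filter (fun u => u ∉ S i.1 ∪ E), F (i.2 (Fr.F u))‖ +
            ‖∑ u ∈ (ZZ D T₀).filter (fun u => u ∉ S i.1 ∪ E), F (i.2 (Fr.F u))‖) := by
      rw [hJ, Finset.sum_sigma]
    rw [h7, ← Finset.mul_sum, Finset.sum_add_distrib]
    have h8 := hgp (fun i => Y / nr (S i.1)) fun i hi => ⟨(hJm i hi).2.1, le_rfl⟩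
    have h9 := hgp (fun _ => T₀) fun i hi => ⟨le_rfl, (hJm i hi).2.1⟩
    refine (mul_le_mul_of_nonneg_left (add_le_add h8 h9) (by positivity)).trans (le_of_eq ?_)
    have h10 : l ^ C2 * (l ^ A₁ * l ^ (-((A + C2 + A₁ + 2 : ℕ) : ℝ))) = l ^ (-((A : ℝ) + 2)) := by
      rw [← Real.rpow_natCast l C2, ← Real.rpow_natCast l A₁, ← Real.rpow_add hl0, ← Real.rpow_add hl0]
      congr 1
      push_cast
      ring
    calc l ^ C2 * (Y * l ^ A₁ * l ^ (-((A + C2 + A₁ + 2 : ℕ) : ℝ)) + Y * l ^ A₁ * l ^ (-((A + C2 + A₁ + 2 : ℕ) : ℝ)))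
        = 2 * (Y * (l ^ C2 * (l ^ A₁ * l ^ (-((A + C2 + A₁ + 2 : ℕ) : ℝ))))) := by ring
      _ = _ := by rw [h10]
  rw [← hR2]
  refine (add_le_add part1 part2).trans ?_
  rw [← hl]
  have h11 : l ^ (-((A : ℝ) + 2)) = l ^ (-(A : ℝ)) * (l ^ 2)⁻¹ := by
    rw [← Real.rpow_natCast l 2, ← Real.rpow_neg hl0.le, ← Real.rpow_add hl0]
    congr 1
    push_cast
    ring
  have h12 : κ * (l ^ 2)⁻¹ ≤ 1 := by
    rw [← div_eq_mul_inv, div_le_one (by positivity)]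
    nlinarith
  have h13 : 0 ≤ Y * l ^ (-(A : ℝ)) := mul_nonneg hY0.le (Real.rpow_nonneg hl0.le _)
  calc (Module.finrank ℚ K * M * C') * (Y * l ^ (-((A : ℝ) + 2))) + 2 * (Y * l ^ (-((A : ℝ) + 2)))
      = (Y * l ^ (-(A : ℝ))) * (κ * (l ^ 2)⁻¹) := by
        rw [h11, hκ]
        ring
    _ ≤ (Y * l ^ (-(A : ℝ))) * 1 := mul_le_mul_of_nonneg_left h12 h13
    _ = _ := mul_one _

theorem eng2 {K : Type} [Field K] [NumberField K] {Ω : Type} [Field Ω] [Algebra K Ω]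
    [IsAlgClosure K Ω] {p k N : ℕ} [NeZero N] {ζ : K} (hp : p.Prime) (hζ : IsPrimitiveRoot ζ p)
    (D : RD0 K p ζ) (hG : GPR D Ω (p ^ k)) (L : LDs D Ω) (Fr : FR L) {P : Type} [Group P]
    (c : CL p N P) (j₀ : Fin N) (X : Finset (Pl K) → (Pl K → P) → ℂ)
    (hX : Mn2 k L Fr c j₀ X) : Sm D c j₀ X := by
  intro ε A A₁ hε
  obtain ⟨H, hGr, hFt, F, C, hq, hF, hC, hco⟩ := hX
  obtain ⟨Y₀, h⟩ := eng2u (Ω := Ω) hp hζ D hG c j₀ H F C hq hF hC ε A A₁ hε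
  exact ⟨Y₀, fun Y hY E e hE hn wt hw => h Y hY L Fr X hco E e hE hn wt hw⟩

end H1.EN2
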