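import Pool.Agent.H19.A2.Df2
import Pool.Agent.H77.WD.Gs

/-!
# [H1 EN2 HS2] the number of homomorphisms which are unramified outside `S0 ∪ T`

`hs2_card`: at most `C^(#T + 1)` homomorphisms to a `p`-group with at most `B` elements (they are determined by the values at `L.t v`, `v ∈ T`, and at the
generators `A.a i`).
-/

set_option autoImplicit false
set_option linter.dupNamespace false

open scoped NumberField ComplexConjugate
open IsDedekindDomain
open scoped Classical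

noncomputable section

namespace H1.EN2

open H63.MA H38.ML H38.BB H38.BG H57.PC H57.BRA H77.PC3 H77.WD H77.WE Pool.Agent.H19.A2

variable {K : Type} [Field K] [NumberField K] {Ω : Type} [Field Ω] [Algebra K Ω] [IsAlgClosure K Ω]
  {p : ℕ} {ζ : K}

omit [NumberField K] [IsAlgClosure K Ω] in
theorem pgk {p k : ℕ} {H : Type} [Group H] (hH : ∀ h : H, h ^ p ^ k = 1) (φ : Gal(Ω/K) →* H) :
    IsPGroup p φ.range := by
  rintro ⟨_, σ, rfl⟩
  exact ⟨k, Subtype.ext (hH _)⟩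

/-- uniform in the places -/
theorem hs2_cardL (hp : p.Prime) (hζ : IsPrimitiveRoot ζ p) (D : RD0 K p ζ) (B : ℕ) :
    ∃ C : ℝ, 1 ≤ C ∧ ∀ (L : LDs D Ω) (H : Type) [Group H] [Finite H], Nat.card H ≤ B →
      IsPGroup p H → ∀ T : Finset (Pl K), ((HS2 L H T).card : ℝ) ≤ C ^ (T.card + 1) ∧
        ∀ φ : Gal(Ω/K) →* H, φ ∈ HS2 L H T ↔ Unz L T φ := by
  obtain ⟨A⟩ := gs_exists hp hζ D Ω
  have hB1 : (1 : ℝ) ≤ (B : ℝ) + 1 := by
    have h : (0 : ℝ) ≤ B := Nat.cast_nonneg B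
    linarith
  refine ⟨((B : ℝ) + 1) ^ (A.g + 1), one_le_pow₀ hB1, ?_⟩
  intro L H _ _ hB hH T
  have hr : ∀ φ : Gal(Ω/K) →* H, IsPGroup p φ.range := fun φ => hH.to_subgroup _
  have hfin : {φ : Gal(Ω/K) →* H | Unz L T φ}.Finite :=
    (hon_finU hp hζ L A T H).subset fun φ h => ⟨h, hr φ⟩
  have hHS : HS2 L H T = hfin.toFinset := dif_pos hfin
  have hmem : ∀ φ : Gal(Ω/K) →* H, φ ∈ HS2 L H T ↔ Unz L T φ := by
    intro φ
    rw [hHS, Set.Finite.mem_toFinset]
    rfl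
  refine ⟨?_, hmem⟩
  let hF : Fintype H := Fintype.ofFinite H
  have hinj : (HS2 L H T).card ≤ (Finset.univ : Finset ((T → H) × (Fin A.g → H))).card := by
    refine Finset.card_le_card_of_injOn (fun φ : Gal(Ω/K) →* H =>
      ((fun v : T => φ (L.t v), fun i : Fin A.g => φ (A.a i)) : (T → H) × (Fin A.g → H)))
      (fun _ _ => Finset.mem_coe.2 (Finset.mem_univ _)) ?_
    intro φ hφ φ' hφ' h
    have h5 := congrArg Prod.fst h
    have h6 := congrArg Prod.snd h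
    exact hon_eqU hp hζ L A T φ φ' ((hmem φ).1 hφ) ((hmem φ').1 hφ') (hr φ) (hr φ')
      (fun v hv => congrFun h5 ⟨v, hv⟩) fun i => congrFun h6 i
  have hcard : (Finset.univ : Finset ((T → H) × (Fin A.g → H))).card = Nat.card H ^ (T.card + A.g) := by
    rw [Finset.card_univ, Fintype.card_prod, Fintype.card_fun, Fintype.card_fun, Fintype.card_coe,
      Fintype.card_fin, pow_add, Nat.card_eq_fintype_card]
  have h1 : ((HS2 L H T).card : ℝ) ≤ ((B : ℝ) + 1) ^ (T.card + A.g) := by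
    have h2 : (Nat.card H : ℝ) ≤ (B : ℝ) + 1 := by
      have h3 : (Nat.card H : ℝ) ≤ B := by exact_mod_cast hB
      linarith
    calc ((HS2 L H T).card : ℝ) ≤ (Nat.card H : ℝ) ^ (T.card + A.g) := by
          rw [hcard] at hinj
          exact_mod_cast hinj
      _ ≤ _ := pow_le_pow_left₀ (Nat.cast_nonneg _) h2 _
  refine h1.trans ?_
  rw [← pow_mul]
  refine pow_le_pow_right₀ hB1 ?_
  have e : (A.g + 1) * (T.card + 1) = T.card + A.g + (A.g * T.card + 1) := by ring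
  rw [e]
  exact Nat.le_add_right _ _

theorem hs2_card (hp : p.Prime) (hζ : IsPrimitiveRoot ζ p) {D : RD0 K p ζ} (L : LDs D Ω) (B : ℕ) :
    ∃ C : ℝ, 1 ≤ C ∧ ∀ (H : Type) [Group H] [Finite H], Nat.card H ≤ B → IsPGroup p H →
      ∀ T : Finset (Pl K), ((HS2 L H T).card : ℝ) ≤ C ^ (T.card + 1) ∧
        ∀ φ : Gal(Ω/K) →* H, φ ∈ HS2 L H T ↔ Unz L T φ := by
  obtain ⟨C, h1, h2⟩ := hs2_cardL (Ω := Ω) hp hζ D B
  exact ⟨C, h1, fun H _ _ hB hH T => h2 L H hB hH T⟩

end H1.EN2
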