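import Pool.Agent.H1.EN2.Raw
import Pool.Agent.H1.EN2.Hs2
import Pool.Agent.H86.AP.EngD
import Pool.Agent.H57.GP.Gpr

/-!
# [H1 EN2 GP2] the black box GPR for class functions of mean zero on groups of exponent `p ^ k`
-/

set_option autoImplicit false
set_option linter.dupNamespace false

open scoped NumberField ComplexConjugate
open IsDedekindDomain
open scoped Classical

noncomputable section

namespace H1.EN2

open H63.MA H38.ML H38.BB H38.BG H57.PC H57.BRA H77.PC3 H77.WD H77.WE Pool.Agent.H19.NF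
  Pool.Agent.H19.AB H86.AP H57.GP Pool.Agent.H19.A2

variable {K : Type} [Field K] [NumberField K] {Ω : Type} [Field Ω] [Algebra K Ω]
  {p : ℕ} {ζ : K}

theorem gp2 {k : ℕ} (hp : p.Prime) (D : RD0 K p ζ) (hG : GPR D Ω (p ^ k))
    (b C₁ A : ℕ) (ε : ℝ) (hε : 0 < ε) :
    ∃ Y₀ : ℝ, ∀ Y : ℝ, Y₀ ≤ Y → ∀ (L : LDs D Ω) (Fr : FR L),
      ∀ (ι : Type) (J : Finset ι) (n : ι → Finset (Pl K)) (x : ι → ℝ),
      (∀ i ∈ J, nr (n i) ≤ Y ^ C₁ ∧ ((n i).card : ℝ) ≤ C₁ * Real.log (Real.log Y)) →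
      (∀ i ∈ J, Real.exp (Real.log Y ^ ε) ≤ x i ∧ x i ≤ Y ^ C₁) →
      (∀ n', ((J.filter fun i => n i = n').card : ℝ) ≤ Real.log Y ^ C₁) →
      ∀ (H : Type) [Group H] [Fintype H] (F : H → ℂ), Fintype.card H ≤ b →
        (∀ h : H, h ^ p ^ k = 1) → (∀ g h : H, F (g * h * g⁻¹) = F h) →
        (∀ h, ‖F h‖ ≤ b) → ∀ Θ : ι → Gal(Ω/K) →* H,
        (∀ i ∈ J, Unz L (n i) (Θ i) ∧ mr (Θ i) F = 0) →
      ∑ i ∈ J, (nr (n i))⁻¹ * (x i)⁻¹ *
          ‖∑ u ∈ (ZZ D (x i)).filter (fun u => u ∉ n i), F (Θ i (Fr.F u))‖ ≤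
        Real.log Y ^ (-(A : ℝ)) := by
  have : NeZero (p ^ k) := ⟨pow_ne_zero _ hp.ne_zero⟩
  have hq1 : 1 ≤ p ^ k := Nat.one_le_iff_ne_zero.2 (NeZero.ne _)
  obtain ⟨Y₁, h⟩ := hG (b * p ^ k) C₁ A ε hε
  refine ⟨Y₁, ?_⟩
  intro Y hY L Fr ι J n x hn hx hfib H _ _ F hcard hq hF hFb Θ hΘ
  have hbb : b ≤ b * p ^ k := Nat.le_mul_of_pos_right _ hq1
  have h1 := h Y hY L Fr ι J n x hn hx hfib (fun _ => H) Θ (fun _ => F) fun i hi => by
    refine ⟨?_, pgk hq (Θ i), ⟨fun z : (Θ i).range => F (z : H), ?_, ?_⟩, (hΘ i hi).1.1,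
      (hΘ i hi).1.2⟩
    · refine le_trans ?_ (hcard.trans hbb)
      rw [← Finset.card_univ]
      exact Finset.card_le_card (Finset.filter_subset _ _)
    · refine raw_all (fun z => Subtype.ext (hq _)) _ (fun z => (hFb _).trans ?_) ?_
      · exact_mod_cast hbb
      · refine Nat.mul_le_mul_right _ (le_trans ?_ hcard)
        exact Fintype.card_le_of_injective _ Subtype.val_injective
    · exact gpr_cls (Θ i) F fun y _ z _ => hF z y
  refine le_trans (le_of_eq (Finset.sum_congr rfl fun i hi => ?_)) h1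
  rw [(hΘ i hi).2]
  simp only [sub_zero]
  congr 2
  unfold ZZ
  rw [Finset.filter_filter]

end H1.EN2
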