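import Pool.Agent.H57.GP.Tel

/-!
# [H1 EN2 RAW] functions on a group of exponent `q` are combinations of characters of cyclic subgroups

* `cyc_inj`: a cyclic group of order dividing `q` has an injective character with values in `ZMod q`.
* `raw_all`: every function on a finite group of exponent `q` is a combination of characters of order dividing `q` of subgroups (`Raw q b`).
-/

set_option autoImplicit false

open scoped Classical

noncomputable section

namespace H1.EN2

open H63.MA H57.GP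

theorem ep_add' {q : ℕ} [NeZero q] (a b : ZMod q) : ep q (a + b) = ep q a * ep q b := by
  rw [rayc_std, rayc_std, rayc_std, AddChar.map_add_eq_mul]

theorem ep_sum' {q : ℕ} [NeZero q] (b : ZMod q) :
    ∑ a : ZMod q, ep q (a * b) = if b = 0 then (q : ℂ) else 0 := by
  have h := AddChar.sum_mulShift b (ZMod.isPrimitive_stdAddChar q)
  simp only [rayc_std]
  rw [h, ZMod.card]
  split_ifs <;> simp

/-- an injective character of a cyclic group -/
theorem cyc_inj {G : Type} [Group G] {q : ℕ} [NeZero q] (h : G) (hh : h ^ q = 1) :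
    ∃ ι : G → ZMod q, Lc (Subgroup.zpowers h) ι ∧
      ∀ z ∈ Subgroup.zpowers h, ι z = 0 → z = 1 := by
  have hn : orderOf h ∣ q := orderOf_dvd_of_pow_eq_one hh
  obtain ⟨m, hm⟩ := hn
  have hq0 : q ≠ 0 := NeZero.ne q
  have hm0 : (m : ℤ) ≠ 0 := by
    rintro h0
    apply hq0
    have : m = 0 := by exact_mod_cast h0
    rw [hm, this, mul_zero]
  have hk : ∀ z : G, z ∈ Subgroup.zpowers h → ∃ k : ℤ, h ^ k = z := fun z hz => hz
  obtain ⟨ι, hι⟩ : ∃ ι : G → ZMod q, ι = fun z => if hz : z ∈ Subgroup.zpowers h then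
    (((hk z hz).choose * m : ℤ) : ZMod q) else 0 := ⟨_, rfl⟩
  have key : ∀ k : ℤ, ((k * m : ℤ) : ZMod q) = 0 ↔ h ^ k = 1 := by
    intro k
    rw [ZMod.intCast_zmod_eq_zero_iff_dvd, hm, Nat.cast_mul, mul_dvd_mul_iff_right hm0,
      orderOf_dvd_iff_zpow_eq_one]
  have hval : ∀ k : ℤ, ι (h ^ k) = ((k * m : ℤ) : ZMod q) := by
    intro k
    have hz : h ^ k ∈ Subgroup.zpowers h := ⟨k, rfl⟩
    rw [hι]
    dsimp only
    rw [dif_pos hz, ← sub_eq_zero, ← Int.cast_sub, ← sub_mul, key, zpow_sub, (hk _ hz).choose_spec,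
      mul_inv_cancel]
  refine ⟨ι, ?_, ?_⟩
  · rintro _ ⟨i, rfl⟩ _ ⟨j, rfl⟩
    dsimp only
    rw [← zpow_add, hval, hval, hval, ← Int.cast_add, add_mul]
  · rintro _ ⟨i, rfl⟩ h0
    dsimp only at h0 ⊢
    rw [hval, key] at h0
    exact h0

theorem raw_all {G : Type} [Group G] [Fintype G] {q b : ℕ} [NeZero q] (hq : ∀ h : G, h ^ q = 1)
    (f : G → ℂ) (hf : ∀ h, ‖f h‖ ≤ b) (hb : Fintype.card G * q ≤ b) : Raw q b f := by
  choose ι h1 h2 using fun h : G => cyc_inj h (hq h)
  have hq0 : (q : ℂ) ≠ 0 := Nat.cast_ne_zero.2 (NeZero.ne q)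
  have hq1 : (1 : ℝ) ≤ q := by exact_mod_cast Nat.one_le_iff_ne_zero.2 (NeZero.ne q)
  obtain ⟨c', H', ψ', g1, g2, -, g4⟩ := tel_pad (ι := G × ZMod q) (N := b)
    (by rw [Fintype.card_prod, ZMod.card]; exact hb)
    (fun x => f x.1 / q * ep q (-(x.2 * ι x.1 x.1))) (fun x => Subgroup.zpowers x.1)
    (fun x y => x.2 * ι x.1 y)
    (fun x a ha b hb => by
      show x.2 * ι x.1 (a * b) = x.2 * ι x.1 a + x.2 * ι x.1 b
      rw [h1 x.1 a ha b hb, mul_add])
    (fun x => by
      rw [norm_mul, ep_norm, mul_one, norm_div, Complex.norm_natCast]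
      exact (div_le_self (norm_nonneg _) hq1).trans (hf x.1))
  refine ⟨c', H', ψ', g1, g2, fun y => ?_⟩
  rw [← g4, Fintype.sum_prod_type]
  have h3 : ∀ h : G, ∑ a : ZMod q, f h / q * ep q (-(a * ι h h)) *
      th (Subgroup.zpowers h) (fun z => a * ι h z) y = if y = h then f h else 0 := by
    intro h
    unfold th
    by_cases hy : y ∈ Subgroup.zpowers h
    · have h4 : ∀ a : ZMod q, f h / q * ep q (-(a * ι h h)) *
          (if y ∈ Subgroup.zpowers h then ep q (a * ι h y) else 0) =
          f h / q * ep q (a * (ι h y - ι h h)) := by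
        intro a
        rw [if_pos hy, mul_assoc, ← ep_add']
        congr 2
        ring
      rw [Finset.sum_congr rfl fun a _ => h4 a, ← Finset.mul_sum, ep_sum']
      have hhm : h ∈ Subgroup.zpowers h := Subgroup.mem_zpowers h
      have h5 : ι h y - ι h h = 0 ↔ y = h := by
        constructor
        · intro h6
          have h7 : y * h⁻¹ ∈ Subgroup.zpowers h := mul_mem hy (inv_mem hhm)
          have h8 : ι h (y * h⁻¹) = 0 := by
            have h9 := h1 h (y * h⁻¹) h7 h hhm
            rw [inv_mul_cancel_right] at h9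
            rw [h9, add_sub_cancel_right] at h6
            exact h6
          exact mul_inv_eq_one.1 (h2 h _ h7 h8)
        · rintro rfl
          exact sub_self _
      by_cases h6 : y = h
      · rw [if_pos (h5.2 h6), if_pos h6, div_mul_cancel₀ _ hq0]
      · rw [if_neg fun h7 => h6 (h5.1 h7), if_neg h6, mul_zero]
    · have h4 : y ≠ h := by
        rintro rfl
        exact hy (Subgroup.mem_zpowers y)
      rw [if_neg h4]
      refine Finset.sum_eq_zero fun a _ => ?_
      rw [if_neg hy, mul_zero]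
  rw [Finset.sum_congr rfl fun h _ => h3 h, Finset.sum_ite_eq Finset.univ y, if_pos (Finset.mem_univ _)]

end H1.EN2
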